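import Pool.Agent.W889.VC.HF

set_option autoImplicit false

/-! Groups of permutations without algebraicity: generic colourings. -/

namespace Pool.Agent.W889.TV

open Set Order
open Pool.Agent.W889.VC (BP)

/-- The topological Vaught conjecture for the group `G` with its Borel structure. -/
def TVC (G : Type) [Group G] [MeasurableSpace G] : Prop :=
  ∀ (X : Type) [MeasurableSpace X] [StandardBorelSpace X] [MulAction G X] [MeasurableSMul₂ G X],
    Countable (Quotient (MulAction.orbitRel G X)) ∨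
    ∃ f : (ℕ → Bool) → X, Measurable f ∧
      ∀ x y : ℕ → Bool, x ≠ y → ¬ ∃ g : G, g • f x = f y

/-- The Borel structure of the group of permutations, generated by the evaluation maps (the Borel
sets of the topology of pointwise convergence if `A` is countable). -/
instance permM (A : Type) [MeasurableSpace A] : MeasurableSpace (Equiv.Perm A) :=
  MeasurableSpace.comap (fun σ a => σ a) MeasurableSpace.pi

theorem measurable_perm {A Y : Type} [MeasurableSpace A] [MeasurableSpace Y]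
    {f : Y → Equiv.Perm A} (h : ∀ a, Measurable fun y => f y a) : Measurable f := by
  rw [measurable_comap_iff]
  exact measurable_pi_iff.2 h

/-- back and forth, finitely many points at a time -/
theorem bfS {A B : Type} [Countable A] [Countable B] (G : Finset (A × B) → Prop) (h0 : G ∅)
    (hf : ∀ f, G f → ∀ a, ∃ b, ∃ g, f ⊆ g ∧ (a, b) ∈ g ∧ G g)
    (hb : ∀ f, G f → ∀ b, ∃ a, ∃ g, f ⊆ g ∧ (a, b) ∈ g ∧ G g)
    (inj : ∀ f, G f → ∀ p ∈ f, ∀ q ∈ f, (p.1 = q.1 ↔ p.2 = q.2)) :
    ∃ e : A ≃ B, ∀ F : Finset A, ∃ f, G f ∧ ∀ a ∈ F, (a, e a) ∈ f := by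
  classical
  let P := {f : Finset (A × B) // G f}
  let _ : Preorder P := inferInstanceAs (Preorder {f : Finset (A × B) // G f})
  have : Inhabited P := ⟨⟨∅, h0⟩⟩
  let L : A → Cofinal P := fun a =>
    { carrier := {f | ∃ b, (a, b) ∈ f.1}
      isCofinal := by
        intro f
        obtain ⟨b, g, h1, h2, h3⟩ := hf f.1 f.2 a
        exact ⟨⟨g, h3⟩, ⟨b, h2⟩, h1⟩ }
  let R : B → Cofinal P := fun b =>
    { carrier := {f | ∃ a, (a, b) ∈ f.1}
      isCofinal := by
        intro f
        obtain ⟨a, g, h1, h2, h3⟩ := hb f.1 f.2 b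
        exact ⟨⟨g, h3⟩, ⟨a, h2⟩, h1⟩ }
  let _ := Encodable.ofCountable A
  let _ := Encodable.ofCountable B
  let D : A ⊕ B → Cofinal P := Sum.elim L R
  let I : Ideal P := idealOfCofinals (default : P) D
  have hL : ∀ a, ∃ b, ∃ f ∈ I, (a, b) ∈ f.1 := by
    intro a
    obtain ⟨f, ⟨b, hb⟩, hf⟩ := cofinal_meets_idealOfCofinals (default : P) D (Sum.inl a)
    exact ⟨b, f, hf, hb⟩
  have hR : ∀ b, ∃ a, ∃ f ∈ I, (a, b) ∈ f.1 := by
    intro b
    obtain ⟨f, ⟨a, ha⟩, hf⟩ := cofinal_meets_idealOfCofinals (default : P) D (Sum.inr b)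
    exact ⟨a, f, hf, ha⟩
  choose F fF hF1 hF2 using hL
  choose H fH hH1 hH2 using hR
  have hdir : ∀ f ∈ I, ∀ g ∈ I, ∃ h ∈ I, f.1 ⊆ h.1 ∧ g.1 ⊆ h.1 := by
    intro f hf g hg
    obtain ⟨h, hh, h1, h2⟩ := I.directed f hf g hg
    exact ⟨h, hh, h1, h2⟩
  refine ⟨⟨F, H, ?_, ?_⟩, ?_⟩
  · intro a
    obtain ⟨h, hh, h1, h2⟩ := hdir _ (hF1 a) _ (hH1 (F a))
    exact ((inj h.1 h.2 _ (h1 (hF2 a)) _ (h2 (hH2 (F a)))).2 rfl).symm
  · intro b
    obtain ⟨h, hh, h1, h2⟩ := hdir _ (hF1 (H b)) _ (hH1 b)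
    exact (inj h.1 h.2 _ (h1 (hF2 (H b))) _ (h2 (hH2 b))).1 rfl
  · intro S
    have : ∃ f ∈ I, ∀ a ∈ S, (a, F a) ∈ f.1 := by
      induction S using Finset.induction_on with
      | empty => exact ⟨_, I.nonempty.some_mem, fun a ha => absurd ha (Finset.notMem_empty a)⟩
      | insert a S _ ih =>
        obtain ⟨f, h1, h2⟩ := ih
        obtain ⟨h, h3, h4, h5⟩ := hdir f h1 _ (hF1 a)
        refine ⟨h, h3, fun b hb => ?_⟩
        rw [Finset.mem_insert] at hb
        rcases hb with rfl | hb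
        · exact h5 (hF2 b)
        · exact h4 (h2 b hb)
    obtain ⟨f, -, h2⟩ := this
    exact ⟨f.1, f.2, h2⟩

/-- countably many infinite sets have distinct representatives -/
theorem exists_rep {A : Type} (O : ℕ → Set A) (h : ∀ n, (O n).Infinite) :
    ∃ f : ℕ → A, Function.Injective f ∧ ∀ n, f n ∈ O n := by
  classical
  have hex : ∀ (n : ℕ) (S : Finset A), ∃ b ∈ O n, b ∉ S := fun n S =>
    (h n).exists_notMem_finset S
  choose b hb1 hb2 using hex
  let g : ℕ → Finset A × A := fun n => Nat.rec (∅, b 0 ∅)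
    (fun n p => (insert p.2 p.1, b (n + 1) (insert p.2 p.1))) n
  have hg : ∀ n, g (n + 1) = (insert (g n).2 (g n).1, b (n + 1) (insert (g n).2 (g n).1)) :=
    fun n => rfl
  have hmem : ∀ m n, m < n → (g m).2 ∈ (g n).1 := by
    intro m n hmn
    induction n with
    | zero => omega
    | succ n ih =>
      rw [hg]
      rw [Finset.mem_insert]
      rcases Nat.lt_succ_iff_lt_or_eq.1 hmn with h' | h'
      · exact Or.inr (ih h')
      · exact Or.inl (by rw [h'])
  have hnot : ∀ n, (g n).2 ∉ (g n).1 := by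
    intro n
    cases n with
    | zero => exact Finset.notMem_empty _
    | succ n =>
      rw [hg]
      exact hb2 _ _
  refine ⟨fun n => (g n).2, fun m n hmn => ?_, fun n => ?_⟩
  · have hmn' : (g m).2 = (g n).2 := hmn
    rcases lt_trichotomy m n with h' | h' | h'
    · have := hmem m n h'
      rw [hmn'] at this
      exact absurd this (hnot n)
    · exact h'
    · have := hmem n m h'
      rw [← hmn'] at this
      exact absurd this (hnot m)
  · cases n with
    | zero => exact hb1 _ _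
    | succ n => exact hb1 _ _

section col

variable {Γ A : Type} [Group Γ] (φ : Γ →* Equiv.Perm A)

/-- `b` is in the orbit of `a` over the finite set `F` -/
def Orb (F : Finset A) (a b : A) : Prop := ∃ g, (∀ c ∈ F, φ g c = c) ∧ φ g a = b

/-- every colour occurs in every orbit over a finite set -/
def Gen (c : A → ℕ) : Prop := ∀ (i : ℕ) (F : Finset A) (a : A), a ∉ F → ∃ b, Orb φ F a b ∧ c b = i

variable {φ}

theorem gen_map {c : A → ℕ} (h : Gen φ c) (g : Γ) (τ : Equiv.Perm ℕ) :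
    Gen φ (fun a => τ (c (φ g⁻¹ a))) := by
  classical
  intro i F a ha
  obtain ⟨b, ⟨k, h1, h2⟩, h3⟩ := h (τ.symm i) (F.image (φ g⁻¹)) (φ g⁻¹ a) (by
    rw [Finset.mem_image]
    rintro ⟨x, hx, hxa⟩
    exact ha ((φ g⁻¹).injective hxa ▸ hx))
  have e1 : ∀ x, φ g (φ g⁻¹ x) = x := fun x => by
    rw [← Equiv.Perm.mul_apply, ← map_mul]
    simp
  refine ⟨φ g b, ⟨g * k * g⁻¹, fun x hx => ?_, ?_⟩, ?_⟩
  · rw [map_mul, map_mul, Equiv.Perm.mul_apply, Equiv.Perm.mul_apply,
      h1 _ (Finset.mem_image_of_mem _ hx), e1]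
  · rw [map_mul, map_mul, Equiv.Perm.mul_apply, Equiv.Perm.mul_apply, h2]
  · have : φ g⁻¹ (φ g b) = b := by
      rw [← Equiv.Perm.mul_apply, ← map_mul]
      simp
    show τ (c (φ g⁻¹ (φ g b))) = i
    rw [this, h3, Equiv.apply_symm_apply]

theorem gen_surj [Nonempty A] {c : A → ℕ} (h : Gen φ c) (i : ℕ) : ∃ b, c b = i := by
  obtain ⟨b, -, hb⟩ := h i ∅ (Classical.arbitrary A) (Finset.notMem_empty _)
  exact ⟨b, hb⟩

/-- generic colourings exist -/
theorem gen_exists [Countable A]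
    (noalg : ∀ (F : Finset A) (a : A), a ∉ F → {b | Orb φ F a b}.Infinite) [Nonempty A] :
    ∃ c : A → ℕ, Gen φ c := by
  classical
  let ι := {t : ℕ × Finset A × A // t.2.2 ∉ t.2.1}
  have : Nonempty ι := ⟨⟨(0, ∅, Classical.arbitrary A), Finset.notMem_empty _⟩⟩
  obtain ⟨s, hs⟩ := exists_surjective_nat ι
  obtain ⟨f, hf1, hf2⟩ := exists_rep (fun n => {b | Orb φ (s n).1.2.1 (s n).1.2.2 b})
    (fun n => noalg _ _ (s n).2)
  let c : A → ℕ := fun a => if h : ∃ n, f n = a then (s h.choose).1.1 else 0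
  refine ⟨c, fun i F a ha => ?_⟩
  obtain ⟨n, hn⟩ := hs ⟨(i, F, a), ha⟩
  refine ⟨f n, ?_, ?_⟩
  · have := hf2 n
    rw [hn] at this
    exact this
  · have h : ∃ m, f m = f n := ⟨n, rfl⟩
    have h1 : c (f n) = (s h.choose).1.1 := dif_pos h
    have h2 : h.choose = n := hf1 h.choose_spec
    rw [h1, h2, hn]

/-- any two generic colourings are conjugate, with any permutation of the colours -/
theorem gen_conj [Countable A]
    (closed : ∀ σ : Equiv.Perm A, (∀ F : Finset A, ∃ g, ∀ a ∈ F, φ g a = σ a) → ∃ g, φ g = σ)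
    {c c' : A → ℕ} (h : Gen φ c) (h' : Gen φ c') (τ : Equiv.Perm ℕ) :
    ∃ g, ∀ a, c' (φ g a) = τ (c a) := by
  classical
  obtain ⟨e, he⟩ := bfS (A := A) (B := A)
    (fun f => (∃ g, ∀ p ∈ f, φ g p.1 = p.2) ∧ ∀ p ∈ f, c' p.2 = τ (c p.1))
    ⟨⟨1, fun p hp => absurd hp (Finset.notMem_empty p)⟩,
      fun p hp => absurd hp (Finset.notMem_empty p)⟩
    (by
      rintro f ⟨⟨g, hg⟩, hc⟩ a
      by_cases ha : ∃ b, (a, b) ∈ f
      · obtain ⟨b, hb⟩ := ha
        exact ⟨b, f, Finset.Subset.refl _, hb, ⟨g, hg⟩, hc⟩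
      · obtain ⟨b, ⟨k, h1, h2⟩, h3⟩ := h' (τ (c a)) (f.image Prod.snd) (φ g a) (by
          rw [Finset.mem_image]
          rintro ⟨p, hp, hpa⟩
          rw [← hg p hp] at hpa
          exact ha ⟨p.2, by rw [← (φ g).injective hpa]; exact hp⟩)
        refine ⟨b, insert (a, b) f, Finset.subset_insert _ _, Finset.mem_insert_self _ _,
          ⟨k * g, fun p hp => ?_⟩, fun p hp => ?_⟩
        · rw [map_mul, Equiv.Perm.mul_apply]
          rw [Finset.mem_insert] at hp
          rcases hp with rfl | hp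
          · exact h2
          · rw [hg p hp]
            exact h1 _ (Finset.mem_image_of_mem _ hp)
        · rw [Finset.mem_insert] at hp
          rcases hp with rfl | hp
          · exact h3
          · exact hc p hp)
    (by
      rintro f ⟨⟨g, hg⟩, hc⟩ b
      by_cases hb : ∃ a, (a, b) ∈ f
      · obtain ⟨a, ha⟩ := hb
        exact ⟨a, f, Finset.Subset.refl _, ha, ⟨g, hg⟩, hc⟩
      · have e1 : ∀ x, φ g (φ g⁻¹ x) = x := fun x => by
          rw [← Equiv.Perm.mul_apply, ← map_mul]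
          simp
        have e2 : ∀ (k : Γ) x, φ k⁻¹ (φ k x) = x := fun k x => by
          rw [← Equiv.Perm.mul_apply, ← map_mul]
          simp
        obtain ⟨a, ⟨k, h1, h2⟩, h3⟩ := h (τ.symm (c' b)) (f.image Prod.fst) (φ g⁻¹ b) (by
          rw [Finset.mem_image]
          rintro ⟨p, hp, hpa⟩
          have := hg p hp
          rw [hpa, e1] at this
          exact hb ⟨p.1, by rw [this]; exact hp⟩)
        refine ⟨a, insert (a, b) f, Finset.subset_insert _ _, Finset.mem_insert_self _ _,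
          ⟨g * k⁻¹, fun p hp => ?_⟩, fun p hp => ?_⟩
        · rw [map_mul, Equiv.Perm.mul_apply]
          rw [Finset.mem_insert] at hp
          rcases hp with rfl | hp
          · show φ g (φ k⁻¹ a) = b
            rw [← h2, e2, e1]
          · have h4 := h1 _ (Finset.mem_image_of_mem Prod.fst hp)
            have h5 : φ k⁻¹ p.1 = p.1 := by
              conv_lhs => rw [← h4]
              exact e2 _ _
            rw [h5]
            exact hg p hp
        · rw [Finset.mem_insert] at hp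
          rcases hp with rfl | hp
          · show c' b = τ (c a)
            rw [h3, Equiv.apply_symm_apply]
          · exact hc p hp)
    (by
      rintro f ⟨⟨g, hg⟩, -⟩ p hp q hq
      rw [← hg p hp, ← hg q hq]
      exact (φ g).injective.eq_iff.symm)
  obtain ⟨g, hg⟩ := closed e (fun F => by
    obtain ⟨f, ⟨⟨g, hg⟩, -⟩, h2⟩ := he F
    exact ⟨g, fun a ha => hg _ (h2 a ha)⟩)
  refine ⟨g, fun a => ?_⟩
  obtain ⟨f, ⟨-, h1⟩, h2⟩ := he {a}
  rw [hg]
  exact h1 _ (h2 a (Finset.mem_singleton_self a))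

end col

end Pool.Agent.W889.TV
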