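import Pool.Agent.W889.TV.Norm

set_option autoImplicit false

/-! The induced space and the transfer. -/

namespace Pool.Agent.W889.TV

open Set
open Pool.Agent.W889.VC

section main

variable {Γ A : Type} [Group Γ] {φ : Γ →* Equiv.Perm A} {κ : A → ℕ}

theorem nu_of_perm (hκ : Function.Injective κ) [Nonempty A] {c : A → ℕ} (h : Nf φ κ c)
    (τ : Equiv.Perm ℕ) : nu κ (fun a => τ (c a)) = τ⁻¹ := by
  have h1 := nu_perm hκ (gen_surj h.1) τ
  rw [nu_one hκ h] at h1
  exact eq_inv_of_mul_eq_one_left h1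

theorem act_eq (hκ : Function.Injective κ) [Nonempty A] {X : Type} [MulAction (Equiv.Perm ℕ) X]
    {c c' : A → ℕ} (h : Nf φ κ c) (h' : Nf φ κ c') (x : X) (τ : Equiv.Perm ℕ) (g : Γ)
    (hg : ∀ a, c' (φ g a) = τ (c a)) :
    act hκ g (⟨c, h⟩, x) = ((⟨c', h'⟩, τ • x) : Zs φ κ X) := by
  have e1 : ∀ x, φ g (φ g⁻¹ x) = x := fun x => by
    rw [← Equiv.Perm.mul_apply, ← map_mul]
    simp
  have e : tr φ g c = fun a => τ⁻¹ (c' a) := by
    funext a
    have := hg (φ g⁻¹ a)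
    rw [e1] at this
    show c (φ g⁻¹ a) = τ⁻¹ (c' a)
    rw [this]
    simp
  have h1 : nu κ (tr φ g c) = τ := by
    rw [e, nu_of_perm hκ h' τ⁻¹, inv_inv]
  unfold act
  refine Prod.ext (Subtype.ext ?_) ?_
  · show (fun a => nu κ (tr φ g c) (tr φ g c a)) = c'
    rw [h1, e]
    funext a
    simp
  · show nu κ (tr φ g c) • x = τ • x
    rw [h1]

variable [MeasurableSpace Γ]

theorem bp_tr [Countable A] (hφ : ∀ a b, MeasurableSet {g | φ g a = b}) {X : Type}
    [MeasurableSpace X] (a : A) (i : ℕ) :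
    BP (fun p : Γ × Zs φ κ X => tr φ p.1 p.2.1.1 a = i) := by
  have h1 : ∀ b, BP (fun p : Γ × Zs φ κ X => φ p.1 b = a) := fun b =>
    measurable_fst (hφ b a)
  have hm : Measurable fun p : Γ × Zs φ κ X => p.2.1.1 :=
    measurable_subtype_coe.comp (measurable_fst.comp measurable_snd)
  have h2 : ∀ b, BP (fun p : Γ × Zs φ κ X => p.2.1.1 b = i) := fun b =>
    ((measurable_pi_apply b).comp hm) (measurableSet_singleton i)
  refine (BP.ex fun b => (h1 b).and (h2 b)).congr fun p => ?_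
  constructor
  · rintro ⟨b, h3, h4⟩
    show p.2.1.1 (φ p.1⁻¹ a) = i
    rw [← h3, ← Equiv.Perm.mul_apply, ← map_mul]
    simpa using h4
  · intro h3
    refine ⟨φ p.1⁻¹ a, ?_, h3⟩
    rw [← Equiv.Perm.mul_apply, ← map_mul]
    simp

theorem bp_nu (hκ : Function.Injective κ) [Nonempty A] [Countable A]
    (hφ : ∀ a b, MeasurableSet {g | φ g a = b}) {X : Type} [MeasurableSpace X] (i n : ℕ) :
    BP (fun p : Γ × Zs φ κ X => nu κ (tr φ p.1 p.2.1.1) i = n) := by
  refine (bp_nuF (κ := κ) (C := fun p : Γ × Zs φ κ X => tr φ p.1 p.2.1.1)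
    (bp_tr hφ) i n).congr fun p => ?_
  rw [nu_apply hκ (gen_surj (gen_tr p.2.1.2.1 p.1))]

theorem measurable_nat {Y : Type} [MeasurableSpace Y] {f : Y → ℕ} (h : ∀ n, BP fun y => f y = n) :
    Measurable f := measurable_to_countable' fun n => h n

theorem measurable_act (hκ : Function.Injective κ) [Nonempty A] [Countable A]
    (hφ : ∀ a b, MeasurableSet {g | φ g a = b}) {X : Type} [MeasurableSpace X]
    [MulAction (Equiv.Perm ℕ) X] [MeasurableSMul₂ (Equiv.Perm ℕ) X] :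
    Measurable fun p : Γ × Zs φ κ X => act hκ p.1 p.2 := by
  have hnu : Measurable fun p : Γ × Zs φ κ X => nu κ (tr φ p.1 p.2.1.1) :=
    measurable_perm fun i => measurable_nat fun n => bp_nu hκ hφ i n
  refine Measurable.prodMk ?_ ?_
  · refine Measurable.subtype_mk ?_
    refine measurable_pi_iff.2 fun a => measurable_nat fun n => ?_
    refine (BP.ex fun i => (bp_tr hφ a i).and (bp_nu hκ hφ i n)).congr fun p => ?_
    constructor
    · rintro ⟨i, h1, h2⟩
      show nu κ (tr φ p.1 p.2.1.1) (tr φ p.1 p.2.1.1 a) = n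
      rw [h1]
      exact h2
    · intro h
      exact ⟨_, rfl, h⟩
  · exact hnu.smul (measurable_snd.comp measurable_snd)

/-- the transfer -/
theorem transfer [Countable A] [Nonempty A] (hφ : ∀ a b, MeasurableSet {g | φ g a = b})
    (closed : ∀ σ : Equiv.Perm A, (∀ F : Finset A, ∃ g, ∀ a ∈ F, φ g a = σ a) → ∃ g, φ g = σ)
    (noalg : ∀ (F : Finset A) (a : A), a ∉ F → {b | Orb φ F a b}.Infinite) (hT : TVC Γ) :
    TVC (Equiv.Perm ℕ) := by
  classical
  intro X _ _ _ _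
  obtain ⟨κ, hκ⟩ := Countable.exists_injective_nat A
  let _ := zAct (φ := φ) hκ X
  have : MeasurableSMul₂ Γ (Zs φ κ X) := ⟨measurable_act hκ hφ⟩
  obtain ⟨c0, hc0⟩ := gen_exists noalg
  obtain ⟨c1, hc1⟩ : ∃ c, Nf φ κ c := ⟨_, nf_nrm hκ hc0⟩
  rcases hT (Zs φ κ X) with hcount | ⟨f, hf1, hf2⟩
  · left
    let F : Quotient (MulAction.orbitRel (Equiv.Perm ℕ) X) →
        Quotient (MulAction.orbitRel Γ (Zs φ κ X)) := fun q =>
      Quotient.mk _ ((⟨c1, hc1⟩, q.out) : Zs φ κ X)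
    have hF : Function.Injective F := by
      intro q r hqr
      have h1 := Quotient.exact hqr
      obtain ⟨g, hg⟩ : ∃ g : Γ, act hκ g ((⟨c1, hc1⟩, r.out) : Zs φ κ X) =
          ((⟨c1, hc1⟩, q.out) : Zs φ κ X) := h1
      have h2 : nu κ (tr φ g c1) • r.out = q.out := congrArg Prod.snd hg
      rw [← Quotient.out_eq q, ← Quotient.out_eq r]
      exact Quotient.sound ⟨_, h2⟩
    exact hF.countable
  · right
    refine ⟨fun α => (f α).2, measurable_snd.comp hf1, fun α β hne => ?_⟩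
    rintro ⟨τ, hτ⟩
    obtain ⟨g, hg⟩ := gen_conj closed (f α).1.2.1 (f β).1.2.1 τ
    refine hf2 α β hne ⟨g, ?_⟩
    have h1 := act_eq hκ (f α).1.2 (f β).1.2 (f α).2 τ g hg
    show act hκ g (f α) = f β
    exact h1.trans (Prod.ext (Subtype.ext rfl) hτ)

omit [MeasurableSpace Γ] in
/-- the lifting statement -/
theorem lifting [Countable A] [Nonempty A]
    (closed : ∀ σ : Equiv.Perm A, (∀ F : Finset A, ∃ g, ∀ a ∈ F, φ g a = σ a) → ∃ g, φ g = σ)
    (noalg : ∀ (F : Finset A) (a : A), a ∉ F → {b | Orb φ F a b}.Infinite) :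
    ∃ c : A → ℕ, Function.Surjective c ∧ ∀ τ : Equiv.Perm ℕ, ∃ g, ∀ a, c (φ g a) = τ (c a) := by
  obtain ⟨c, hc⟩ := gen_exists noalg
  exact ⟨c, gen_surj hc, fun τ => gen_conj closed hc hc τ⟩

end main

end Pool.Agent.W889.TV
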