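import Pool.Agent.W889.TV.Basic
import Pool.Agent.W889.SD.Enum

set_option autoImplicit false

/-! Normal forms of colourings. -/

namespace Pool.Agent.W889.TV

open Set
open Pool.Agent.W889.VC
open Pool.Agent.W889.SD (Nth nth_iff bp_nth)

section norm

variable {A : Type} (κ : A → ℕ)

/-- the first element of a colour -/
noncomputable def fst (c : A → ℕ) (i : ℕ) : ℕ := sInf {k | ∃ a, κ a = k ∧ c a = i}

open Classical in
/-- the number of colours that occur before the colour `i` -/
noncomputable def nuF (c : A → ℕ) (i : ℕ) : ℕ := Nat.count (fun k => ∃ j, fst κ c j = k) (fst κ c i)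

open Classical in
/-- the renumbering of the colours -/
noncomputable def nu (c : A → ℕ) : Equiv.Perm ℕ :=
  if h : Function.Bijective (nuF κ c) then Equiv.ofBijective _ h else 1

variable {κ}

theorem fst_spec {c : A → ℕ} {i : ℕ} (h : ∃ a, c a = i) : ∃ a, κ a = fst κ c i ∧ c a = i := by
  obtain ⟨a, ha⟩ := h
  exact Nat.sInf_mem (s := {k | ∃ a, κ a = k ∧ c a = i}) ⟨κ a, a, rfl, ha⟩

theorem fst_inj (hκ : Function.Injective κ) {c : A → ℕ} (h : ∀ i, ∃ a, c a = i) :
    Function.Injective (fst κ c) := by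
  intro i j hij
  obtain ⟨a, h1, h2⟩ := fst_spec (κ := κ) (h i)
  obtain ⟨b, h3, h4⟩ := fst_spec (κ := κ) (h j)
  have : a = b := hκ (by rw [h1, h3, hij])
  rw [← h2, ← h4, this]

theorem nuF_bij (hκ : Function.Injective κ) {c : A → ℕ} (h : ∀ i, ∃ a, c a = i) :
    Function.Bijective (nuF κ c) := by
  classical
  have hinj := fst_inj hκ h
  have hinf : {k | ∃ j, fst κ c j = k}.Infinite := Set.infinite_range_of_injective hinj
  constructor
  · intro i j hij
    have h1 : Nat.count (fun k => ∃ j, fst κ c j = k) (fst κ c i) =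
        Nat.count (fun k => ∃ j, fst κ c j = k) (fst κ c j) := by
      unfold nuF at hij
      convert hij
    exact hinj (Nat.count_injective ⟨i, rfl⟩ ⟨j, rfl⟩ h1)
  · intro n
    obtain ⟨j, hj⟩ := Nat.nth_mem_of_infinite hinf n
    refine ⟨j, ?_⟩
    have h2 : Nat.count (fun k => ∃ j, fst κ c j = k) (fst κ c j) = n := by
      rw [hj]
      exact Nat.count_nth_of_infinite hinf n
    unfold nuF
    convert h2

theorem nu_apply (hκ : Function.Injective κ) {c : A → ℕ} (h : ∀ i, ∃ a, c a = i) (i : ℕ) :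
    nu κ c i = nuF κ c i := by
  unfold nu
  rw [dif_pos (nuF_bij hκ h)]
  rfl

theorem fst_perm (c : A → ℕ) (τ : Equiv.Perm ℕ) (i : ℕ) :
    fst κ (fun a => τ (c a)) (τ i) = fst κ c i := by
  unfold fst
  congr 1
  ext k
  simp

theorem nuF_perm (c : A → ℕ) (τ : Equiv.Perm ℕ) (i : ℕ) :
    nuF κ (fun a => τ (c a)) (τ i) = nuF κ c i := by
  unfold nuF
  rw [fst_perm]
  congr 1
  funext k
  apply propext
  constructor
  · rintro ⟨j, hj⟩
    obtain ⟨j, rfl⟩ := τ.surjective j
    rw [fst_perm] at hj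
    exact ⟨j, hj⟩
  · rintro ⟨j, hj⟩
    exact ⟨τ j, by rw [fst_perm]; exact hj⟩

theorem nu_perm (hκ : Function.Injective κ) {c : A → ℕ} (h : ∀ i, ∃ a, c a = i)
    (τ : Equiv.Perm ℕ) : nu κ (fun a => τ (c a)) * τ = nu κ c := by
  apply Equiv.ext
  intro i
  rw [Equiv.Perm.mul_apply, nu_apply hκ h, nu_apply hκ, nuF_perm]
  intro j
  obtain ⟨a, ha⟩ := h (τ.symm j)
  exact ⟨a, by rw [ha]; simp⟩

section meas

variable {Y : Type} [MeasurableSpace Y] [Countable A] {C : Y → A → ℕ}

theorem bp_fst (h : ∀ a i, BP (fun y => C y a = i)) (i k : ℕ) :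
    BP (fun y => fst κ (C y) i = k) := by
  have : BP (fun y => (∃ a, κ a = k ∧ C y a = i ∧ ∀ b, κ b < k → ¬ C y b = i) ∨
      (k = 0 ∧ ∀ a, ¬ C y a = i)) :=
    (BP.ex fun a => (BP.const _).and <| (h a i).and <| BP.all fun b => (BP.const _).imp
      (h b i).not).or ((BP.const _).and <| BP.all fun a => (h a i).not)
  refine this.congr fun y => ?_
  constructor
  · rintro (⟨a, h1, h2, h3⟩ | ⟨h1, h2⟩)
    · apply le_antisymm
      · exact Nat.sInf_le ⟨a, h1, h2⟩
      · by_contra hlt
        push Not at hlt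
        obtain ⟨b, h4, h5⟩ := fst_spec (κ := κ) ⟨a, h2⟩
        exact h3 b (by rw [h4]; exact hlt) h5
    · unfold fst
      rw [h1, Nat.sInf_eq_zero]
      right
      ext k
      simp only [mem_setOf_eq, mem_empty_iff_false, iff_false]
      rintro ⟨a, -, ha⟩
      exact h2 a ha
  · intro hk
    by_cases hex : ∃ a, C y a = i
    · left
      obtain ⟨a, h1, h2⟩ := fst_spec (κ := κ) hex
      refine ⟨a, by rw [h1, hk], h2, fun b hb h3 => ?_⟩
      have : fst κ (C y) i ≤ κ b := Nat.sInf_le ⟨b, rfl, h3⟩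
      omega
    · right
      push Not at hex
      refine ⟨?_, hex⟩
      rw [← hk]
      unfold fst
      rw [Nat.sInf_eq_zero]
      right
      ext k
      simp only [mem_setOf_eq, mem_empty_iff_false, iff_false]
      rintro ⟨a, -, ha⟩
      exact hex a ha

theorem bp_nuF (h : ∀ a i, BP (fun y => C y a = i)) (i n : ℕ) :
    BP (fun y => nuF κ (C y) i = n) := by
  classical
  have : BP (fun y => ∃ k, fst κ (C y) i = k ∧ Nth (fun k => ∃ j, fst κ (C y) j = k) n k) :=
    BP.ex fun k => (bp_fst h i k).and (bp_nth (fun k => BP.ex fun j => bp_fst h j k) n k)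
  refine this.congr fun y => ?_
  constructor
  · rintro ⟨k, rfl, h2⟩
    rw [nth_iff] at h2
    unfold nuF
    convert h2.2
  · intro h1
    refine ⟨_, rfl, ?_⟩
    rw [nth_iff]
    refine ⟨⟨i, rfl⟩, ?_⟩
    unfold nuF at h1
    convert h1

end meas

end norm

section space

variable {Γ A : Type} [Group Γ] (φ : Γ →* Equiv.Perm A) (κ : A → ℕ)

/-- generic colourings in normal form -/
def Nf (c : A → ℕ) : Prop := Gen φ c ∧ ∀ i, nuF κ c i = i

/-- the induced space -/
def Zs (X : Type) : Type := {c : A → ℕ // Nf φ κ c} × X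

instance (X : Type) [MeasurableSpace X] : MeasurableSpace (Zs φ κ X) :=
  inferInstanceAs (MeasurableSpace ({c : A → ℕ // Nf φ κ c} × X))

theorem bp_Nf {Y : Type} [MeasurableSpace Y] [Countable A] {C : Y → A → ℕ}
    (h : ∀ a i, BP (fun y => C y a = i)) : BP (fun y => Nf φ κ (C y)) :=
  (BP.all fun i => BP.all fun F : Finset A => BP.all fun a => (BP.const (a ∉ F)).imp <|
    BP.ex fun b => (BP.const _).and (h b i)).and (BP.all fun i => bp_nuF h i i)

theorem measurableSet_Nf [Countable A] : MeasurableSet {c : A → ℕ | Nf φ κ c} :=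
  bp_Nf φ κ (C := fun c => c)
    (fun a i => (measurable_pi_apply a : Measurable fun c : A → ℕ => c a)
      (measurableSet_singleton i))

instance (X : Type) [MeasurableSpace X] [StandardBorelSpace X] [Countable A] :
    StandardBorelSpace (Zs φ κ X) := by
  have : StandardBorelSpace {c : A → ℕ // Nf φ κ c} := (measurableSet_Nf φ κ).standardBorel
  exact inferInstanceAs (StandardBorelSpace ({c : A → ℕ // Nf φ κ c} × X))

variable {φ κ}

theorem nu_one (hκ : Function.Injective κ) [Nonempty A] {c : A → ℕ} (h : Nf φ κ c) :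
    nu κ c = 1 := by
  apply Equiv.ext
  intro i
  rw [nu_apply hκ (gen_surj h.1), h.2]
  rfl

theorem nf_nrm (hκ : Function.Injective κ) [Nonempty A] {c : A → ℕ} (h : Gen φ c) :
    Nf φ κ (fun a => nu κ c (c a)) := by
  have h1 := gen_map h 1 (nu κ c)
  have e : (fun a => nu κ c (c (φ 1⁻¹ a))) = fun a => nu κ c (c a) := by
    funext a
    simp
  rw [e] at h1
  refine ⟨h1, fun i => ?_⟩
  obtain ⟨j, rfl⟩ := (nu κ c).surjective i
  rw [nuF_perm, nu_apply hκ (gen_surj h)]

/-- the transported colouring -/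
def tr (φ : Γ →* Equiv.Perm A) (g : Γ) (c : A → ℕ) : A → ℕ := fun a => c (φ g⁻¹ a)

theorem gen_tr {c : A → ℕ} (h : Gen φ c) (g : Γ) : Gen φ (tr φ g c) := gen_map h g 1

/-- the action on the induced space -/
noncomputable def act (hκ : Function.Injective κ) [Nonempty A] {X : Type}
    [MulAction (Equiv.Perm ℕ) X] (g : Γ) (z : Zs φ κ X) : Zs φ κ X :=
  (⟨fun a => nu κ (tr φ g z.1.1) (tr φ g z.1.1 a), nf_nrm hκ (gen_tr z.1.2.1 g)⟩,
    nu κ (tr φ g z.1.1) • z.2)

theorem tr_mul (g h : Γ) (c : A → ℕ) : tr φ (g * h) c = tr φ g (tr φ h c) := by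
  funext a
  unfold tr
  rw [mul_inv_rev, map_mul]
  rfl

/-- the action on the induced space -/
noncomputable def zAct (hκ : Function.Injective κ) [Nonempty A] (X : Type)
    [MulAction (Equiv.Perm ℕ) X] : MulAction Γ (Zs φ κ X) where
  smul g z := act hκ g z
  one_smul := by
    rintro ⟨⟨c, hc⟩, x⟩
    have e : tr φ (1 : Γ) c = c := by
      funext a
      unfold tr
      simp
    show act hκ 1 (⟨c, hc⟩, x) = _
    unfold act
    refine Prod.ext (Subtype.ext ?_) ?_
    · show (fun a => nu κ (tr φ 1 c) (tr φ 1 c a)) = c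
      rw [e, nu_one hκ hc]
      rfl
    · show nu κ (tr φ 1 c) • x = x
      rw [e, nu_one hκ hc, one_smul]
  mul_smul := by
    rintro g h ⟨⟨c, hc⟩, x⟩
    show act hκ (g * h) (⟨c, hc⟩, x) = act hκ g (act hκ h (⟨c, hc⟩, x))
    have e : tr φ g (fun a => nu κ (tr φ h c) (tr φ h c a)) =
        fun a => nu κ (tr φ h c) (tr φ (g * h) c a) := by
      rw [tr_mul]
      rfl
    have hp := nu_perm hκ (gen_surj (gen_tr hc.1 (g * h))) (nu κ (tr φ h c))
    unfold act
    refine Prod.ext (Subtype.ext ?_) ?_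
    · show (fun a => nu κ (tr φ (g * h) c) (tr φ (g * h) c a)) =
        fun a => nu κ (tr φ g (fun a => nu κ (tr φ h c) (tr φ h c a)))
          (tr φ g (fun a => nu κ (tr φ h c) (tr φ h c a)) a)
      rw [e, ← hp]
      rfl
    · show nu κ (tr φ (g * h) c) • x = nu κ (tr φ g (fun a => nu κ (tr φ h c) (tr φ h c a))) •
        (nu κ (tr φ h c) • x)
      rw [e, ← hp, mul_smul]

end space

end Pool.Agent.W889.TV
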