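import Pool.Agent.W889.TV.Main

set_option autoImplicit false

/-! The group of order automorphisms of the rationals. -/

namespace Pool.Agent.W889.TV

open Set

/-- the Borel structure of the group of order automorphisms generated by the evaluations -/
instance ordM (A : Type) [LE A] [MeasurableSpace A] : MeasurableSpace (A ≃o A) :=
  MeasurableSpace.comap (fun σ a => σ a) MeasurableSpace.pi

/-- the inclusion in the group of permutations -/
def ordPerm (A : Type) [LE A] : (A ≃o A) →* Equiv.Perm A where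
  toFun g := g.toEquiv
  map_one' := rfl
  map_mul' _ _ := rfl

/-- a piecewise linear map -/
def pl (a ε k x : ℚ) : ℚ := x + k * max 0 (ε - |x - a|)

theorem pl_strict {a ε k : ℚ} (h0 : 0 < k) (h1 : k < 1) : StrictMono (pl a ε k) := by
  intro x y hxy
  have h2 : max 0 (ε - |x - a|) - max 0 (ε - |y - a|) ≤ y - x := by
    rcases abs_cases (x - a) with h3 | h3 <;> rcases abs_cases (y - a) with h4 | h4 <;>
      rcases max_cases 0 (ε - |x - a|) with h5 | h5 <;>
      rcases max_cases 0 (ε - |y - a|) with h6 | h6 <;> linarith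
  unfold pl
  nlinarith

theorem pl_surj {a ε k : ℚ} (he : 0 < ε) (h0 : 0 < k) (h1 : k < 1) :
    Function.Surjective (pl a ε k) := by
  intro y
  have ho : ∀ x, ε ≤ |x - a| → pl a ε k x = x := by
    intro x hx
    unfold pl
    rw [max_eq_left (by linarith)]
    ring
  by_cases hy1 : y ≤ a - ε
  · exact ⟨y, ho y (by rw [abs_of_nonpos (by linarith)]; linarith)⟩
  by_cases hy2 : a + ε ≤ y
  · exact ⟨y, ho y (by rw [abs_of_nonneg (by linarith)]; linarith)⟩
  push Not at hy1 hy2
  have hk1 : 0 < 1 + k := by linarith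
  have hk2 : 0 < 1 - k := by linarith
  by_cases hy3 : y ≤ a + k * ε
  · refine ⟨(y - k * ε + k * a) / (1 + k), ?_⟩
    have h3 : (y - k * ε + k * a) / (1 + k) ≤ a := by
      rw [div_le_iff₀ hk1]
      linarith
    have h4 : a - ε ≤ (y - k * ε + k * a) / (1 + k) := by
      rw [le_div_iff₀ hk1]
      linarith
    have h5 : (y - k * ε + k * a) / (1 + k) * (1 + k) = y - k * ε + k * a :=
      div_mul_cancel₀ _ hk1.ne'
    unfold pl
    rw [abs_of_nonpos (by linarith), max_eq_right (by linarith)]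
    linarith
  · push Not at hy3
    refine ⟨(y - k * ε - k * a) / (1 - k), ?_⟩
    have h3 : a ≤ (y - k * ε - k * a) / (1 - k) := by
      rw [le_div_iff₀ hk2]
      linarith
    have h4 : (y - k * ε - k * a) / (1 - k) ≤ a + ε := by
      rw [div_le_iff₀ hk2]
      linarith
    have h5 : (y - k * ε - k * a) / (1 - k) * (1 - k) = y - k * ε - k * a :=
      div_mul_cancel₀ _ hk2.ne'
    unfold pl
    rw [abs_of_nonneg (by linarith), max_eq_right (by linarith)]
    linarith

theorem rat_noalg (F : Finset ℚ) (a : ℚ) (ha : a ∉ F) : {b | Orb (ordPerm ℚ) F a b}.Infinite := by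
  obtain ⟨ε, he, hε⟩ : ∃ ε : ℚ, 0 < ε ∧ ∀ c ∈ F, ε ≤ |c - a| := by
    rcases F.eq_empty_or_nonempty with rfl | hF
    · exact ⟨1, one_pos, fun c hc => absurd hc (Finset.notMem_empty c)⟩
    · obtain ⟨c, hc, hmin⟩ := F.exists_min_image (fun c => |c - a|) hF
      exact ⟨|c - a|, abs_pos.2 (sub_ne_zero.2 fun h => ha (h ▸ hc)), hmin⟩
  have hsub : (fun k : ℚ => a + k * ε) '' Set.Ioo 0 1 ⊆ {b | Orb (ordPerm ℚ) F a b} := by
    rintro _ ⟨k, ⟨h0, h1⟩, rfl⟩
    refine ⟨StrictMono.orderIsoOfSurjective (pl a ε k) (pl_strict h0 h1) (pl_surj he h0 h1),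
      fun c hc => ?_, ?_⟩
    · show pl a ε k c = c
      unfold pl
      rw [max_eq_left (by linarith [hε c hc])]
      ring
    · show pl a ε k a = a + k * ε
      unfold pl
      rw [sub_self, abs_zero, sub_zero, max_eq_right he.le]
  refine Set.Infinite.mono hsub ?_
  refine Set.Infinite.image ?_ (Set.Ioo_infinite one_pos)
  intro x _ y _ hxy
  have h1 : x * ε = y * ε := add_left_cancel hxy
  exact mul_right_cancel₀ he.ne' h1

theorem rat_closed (σ : Equiv.Perm ℚ) (h : ∀ F : Finset ℚ, ∃ g, ∀ a ∈ F, ordPerm ℚ g a = σ a) :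
    ∃ g, ordPerm ℚ g = σ := by
  refine ⟨⟨σ, ?_⟩, rfl⟩
  intro a b
  obtain ⟨g, hg⟩ := h {a, b}
  rw [← hg a (by simp), ← hg b (by simp)]
  exact g.le_iff_le

theorem rat_meas (a b : ℚ) : MeasurableSet {g | ordPerm ℚ g a = b} :=
  ⟨(fun f : ℚ → ℚ => f a) ⁻¹' {b}, measurable_pi_apply a (measurableSet_singleton b), rfl⟩

/-- the topological Vaught conjecture for the automorphisms of the rationals implies the one for
the infinite symmetric group -/
theorem rat_transfer (h : TVC (ℚ ≃o ℚ)) : TVC (Equiv.Perm ℕ) :=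
  transfer rat_meas rat_closed rat_noalg h

end Pool.Agent.W889.TV
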